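import Pool.Agent.R55.PawGraph

/-!
# Mutual free chromatic numbers at most two do not imply chromatic relatedness

All graphs are finite, and all containments are as induced subgraphs. `IsFreeColoring H F c` says
that no colour class of `c` contains `F`, and `FreeChromaticNumberEq H F l` says that
`χ(H : -F) = l`; see `Pool.Agent.Results.MP_fbe9f6_co.BipartiteRelated`. The paw `Paw` is the
triangle with a pendant edge.

The idea: the vertices of a paw-free graph split into a triangle-free set and a set without
induced path on four vertices. So three paw-free classes can be regrouped into two classes, one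
covered by two triangle-free sets and one `P₄`-free set, the other covered by one triangle-free set
and two `P₄`-free sets. The graph `G` splits into two paw-free sets but has neither kind of
partition.
-/

set_option autoImplicit false

namespace Pool.Agent.Results.MP_3e1815_co.NotRelated

open Pool.Agent.Results.MP_fbe9f6_co.BipartiteRelated Pool.Agent.R55.PawGraph

/-- **The answer is no.** There is a finite connected graph `G` containing the paw with
`χ(Paw : -G) ≤ 2` and `χ(G : -Paw) ≤ 2`, such that for every `n ≥ 3` every finite graph `H` with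
`χ(H : -Paw) ≤ n` has `χ(H : -G) ≤ n - 1`. In particular for no `n ≥ 3` is there a graph `H` with
`χ(H : -Paw) = χ(H : -G) = n`, and the paw and `G` are not chromatically related. -/
theorem result : ∃ (V : Type) (_ : Finite V) (G : SimpleGraph V),
    Paw.Connected ∧ G.Connected ∧ Nonempty (Paw ↪g G) ∧
    (∃ c : Fin 4 → Fin 2, IsFreeColoring Paw G c) ∧
    (∃ c : V → Fin 2, IsFreeColoring G Paw c) ∧
    (∀ n : ℕ, 3 ≤ n → ∀ (W : Type) [Finite W] (H : SimpleGraph W),
      (∃ c : W → Fin n, IsFreeColoring H Paw c) →
        ∃ c : W → Fin (n - 1), IsFreeColoring H G c) ∧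
    (∀ n : ℕ, 3 ≤ n → ¬ ∃ (W : Type) (_ : Finite W) (H : SimpleGraph W),
      FreeChromaticNumberEq H Paw n ∧ FreeChromaticNumberEq H G n) ∧
    ¬ ChromaticallyRelated Paw G := by
  have hM : 32 < 33 := by norm_num
  have hneg : ∀ n : ℕ, 3 ≤ n → ¬ ∃ (W : Type) (_ : Finite W) (H : SimpleGraph W),
      FreeChromaticNumberEq H Paw n ∧ FreeChromaticNumberEq H (Big 33 11) n := by
    rintro n hn ⟨W, _, H, h⟩
    exact not_related hM hn H h
  refine ⟨(Pairs 33 ⊕ Fin 11) × Bool, inferInstance, Big 33 11, paw_connected,
    big_connected 33 11 (by norm_num), paw_in_big 33 11 (by norm_num),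
    ⟨fun _ => 0, ?_⟩, ⟨_, big_paw_free 33 11⟩, fun n hn W _ H h => recolour' hM hn H h, hneg,
    fun h => hneg 3 le_rfl (h 3 (by norm_num))⟩
  intro i
  refine ⟨fun f => ?_⟩
  have h1 : Function.Injective (fun j : Fin 11 => (f (Sum.inr j, false)).1) := by
    intro a b hab
    have h2 := f.injective (Subtype.ext hab)
    exact Sum.inr_injective (congrArg Prod.fst h2)
  have h3 := Fintype.card_le_of_injective _ h1
  rw [Fintype.card_fin, Fintype.card_fin] at h3
  omega

end Pool.Agent.Results.MP_3e1815_co.NotRelated
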